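import Pool.Agent.Lib_helper98.OPS.PosU
import Pool.Agent.Lib_helper60.OPS.Line
import Pool.Agent.Lib_helper77.OPS.Kelvin

/-!
# One pure state: `PosTarget p` for `4 < p < 5`
-/

set_option autoImplicit false

open scoped BigOperators ComplexOrder Kronecker MatrixOrder Topology Real
open MeasureTheory Set Matrix Filter

namespace Pool.Agent.Lib_helper98.OPS

open Pool.Agent.OPS

variable {m ι : Type} [Fintype m] [DecidableEq m] [Fintype ι] [DecidableEq ι]

omit [DecidableEq ι] in
theorem FF_neg (P : Matrix m m ℂ) (hP : P.PosDef) (q : m → ℝ) (hq : ∀ a, 0 < q a)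
    (be y : ι → ℝ) (hbe : ∀ j, 0 ≤ be j) (s : ℝ) (hs : 0 < s) :
    ((s : ℂ) ^ 4 * FF P (diagonal fun a => (q a : ℂ)) be y (-(s : ℂ))).re =
      ∑ a, ∑ b, Complex.normSq ((P⁻¹ + diagonal (fun a =>
        ((s⁻¹ * ∑ j, y j / (1 + s⁻¹ * (be j * q a)) : ℝ) : ℂ)))⁻¹ a b) *
        ∑ j, y j * (be j * q a / (1 + s⁻¹ * (be j * q a)) -
          be j * q b / (1 + s⁻¹ * (be j * q b))) ^ 2 := by
  have hc : ∀ j a, 0 ≤ be j * q a := fun j a => mul_nonneg (hbe j) (hq a).le
  have hne : ∀ j a, (-(s : ℂ)) ≠ be j * q a := by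
    intro j a h
    have h1 : -s = be j * q a := by exact_mod_cast h
    have := hc j a
    linarith
  have hG : G P q be y (-(s : ℂ)) = P⁻¹ + diagonal (fun a =>
        ((s⁻¹ * ∑ j, y j / (1 + s⁻¹ * (be j * q a)) : ℝ) : ℂ)) := by
    unfold G
    rw [sub_eq_add_neg]
    congr 1
    rw [Matrix.diagonal_neg]
    congr 1
    funext a
    push_cast
    rw [Finset.mul_sum, ← Finset.sum_neg_distrib]
    refine Finset.sum_congr rfl fun j _ => ?_
    have h1 : (s : ℂ) ≠ 0 := by exact_mod_cast hs.ne'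
    have h2 : (s : ℂ) + be j * q a ≠ 0 := by
      have : s + be j * q a ≠ 0 := by have := hc j a; positivity
      exact_mod_cast this
    have h3 : (1 : ℂ) + (s : ℂ)⁻¹ * (be j * q a) = ((s : ℂ) + be j * q a) / s := by
      field_simp
    have h4 : -(s : ℂ) - be j * q a = -((s : ℂ) + be j * q a) := by ring
    rw [h3, h4, inv_neg]
    field_simp
  set N := P⁻¹ + diagonal (fun a => ((s⁻¹ * ∑ j, y j / (1 + s⁻¹ * (be j * q a)) : ℝ) : ℂ)) with hN
  have hNh : N⁻¹.IsHermitian := by
    refine Matrix.IsHermitian.inv ?_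
    refine Matrix.IsHermitian.add hP.1.inv ?_
    rw [Matrix.isHermitian_diagonal_iff]
    intro a
    rw [isSelfAdjoint_iff, Complex.star_def, Complex.conj_ofReal]
  rw [FF_diag P q be y _ hne]
  unfold FG
  rw [hG]
  have hval : (s : ℂ) ^ 4 * ∑ j, (y j : ℂ) * ∑ a, ∑ b,
      ((-(s : ℂ) - be j * q a)⁻¹ - (-(s : ℂ) - be j * q b)⁻¹) ^ 2 * (N⁻¹ a b * N⁻¹ b a) =
      ((∑ a, ∑ b, Complex.normSq (N⁻¹ a b) *
        ∑ j, y j * (be j * q a / (1 + s⁻¹ * (be j * q a)) -
          be j * q b / (1 + s⁻¹ * (be j * q b))) ^ 2 : ℝ) : ℂ) := by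
    push_cast
    simp only [Finset.mul_sum]
    rw [Finset.sum_comm]
    refine Finset.sum_congr rfl fun a _ => ?_
    rw [Finset.sum_comm]
    refine Finset.sum_congr rfl fun b _ => Finset.sum_congr rfl fun j _ => ?_
    have h0 : N⁻¹ b a = star (N⁻¹ a b) := by
      have := congrFun (congrFun hNh b) a
      simpa [Matrix.conjTranspose_apply] using this.symm
    rw [h0, ← Complex.mul_conj]
    simp only [Complex.star_def]
    have h1 : (s : ℂ) ≠ 0 := by exact_mod_cast hs.ne'
    have h2 : ∀ a, (s : ℂ) + be j * q a ≠ 0 := by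
      intro a
      have : s + be j * q a ≠ 0 := by have := hc j a; positivity
      exact_mod_cast this
    have h3 : ∀ a, (1 : ℂ) + (s : ℂ)⁻¹ * (be j * q a) = ((s : ℂ) + be j * q a) / s := by
      intro a
      field_simp
    have h4 : ∀ a, -(s : ℂ) - be j * q a = -((s : ℂ) + be j * q a) := fun a => by ring
    rw [h3, h3, h4, h4, inv_neg, inv_neg]
    have h5 : (s : ℂ) ^ 2 * (-((s : ℂ) + be j * q a)⁻¹ - -((s : ℂ) + be j * q b)⁻¹) =
        be j * q a / (((s : ℂ) + be j * q a) / s) - be j * q b / (((s : ℂ) + be j * q b) / s) := by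
      have ha := h2 a
      have hb := h2 b
      field_simp
      ring
    rw [← h5]
    ring
  rw [hval, Complex.ofReal_re]

theorem posTarget_diag {p : ℝ} (h4 : 4 < p) (h5 : p < 5) (P : Matrix m m ℂ) (hP : P.PosDef)
    (q : m → ℝ) (hq : ∀ a, 0 < q a) (be : ι → ℝ) (j0 : ι) (hb0 : be j0 = 0)
    (hbe : ∀ j, j ≠ j0 → 0 < be j) (y : ι → ℝ) (hy : ∀ j, 0 < y j) (c ρ : ℝ) (hρ : 0 < ρ)
    (hc : ρ < c) (hne : ∀ z : ℂ, ρ ≤ ‖z - c‖ → z ≠ 0 → ∀ j a, z ≠ be j * q a)
    (hdet : ∀ z : ℂ, ρ ≤ ‖z - c‖ → z ≠ 0 → (G P q be y z).det ≠ 0) :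
    0 ≤ ((2 * π * Complex.I : ℂ)⁻¹ *
        ∮ z in C(c, ρ), z ^ ((p - 1 : ℝ) : ℂ) *
          FF P (diagonal fun a => (q a : ℂ)) be y z).re := by
  have hbe0 : ∀ j, 0 ≤ be j := by
    intro j
    by_cases hj : j = j0
    · rw [hj, hb0]
    · exact (hbe j hj).le
  refine line_pos hρ hc h4 h5 _ ?_ (z4_diff P q hq be y j0 hb0 hbe (hy j0).ne') _
    (FF_lim P hP q be y) ?_
  · intro z hz hz0
    exact FF_diff P q be y z (hne z hz hz0) (hdet z hz hz0)
  · intro s hs
    rw [FF_neg P hP q hq be y hbe0 s hs]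
    exact Pool.Agent.Lib_helper77.OPS.kelvin P hP y (fun j => (hy j).le) j0 (hy j0)
      (fun j a => be j * q a) (fun j a => mul_nonneg (hbe0 j) (hq a).le)
      (fun a => by simp [hb0]) (inv_nonneg.2 hs.le)

/-- **Block POS (III)**: `PosTarget p` for `4 < p < 5`. -/
theorem posTarget {p : ℝ} (h4 : 4 < p) (h5 : p < 5) : PosTarget p := by
  intro m ι _ _ _ _ P Q hP hQ be j0 hb0 hbe y hy c ρ hρ hc hX hQe
  have hQh := hQ.1
  set q : m → ℝ := hQh.eigenvalues with hq
  have hqpos : ∀ a, 0 < q a := fun a => hQ.eigenvalues_pos a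
  set V : Matrix m m ℂ := (hQh.eigenvectorUnitary : Matrix m m ℂ) with hV
  have h1 : V * star V = 1 := Unitary.coe_mul_star_self hQh.eigenvectorUnitary
  have h2 : star V * V = 1 := Unitary.coe_star_mul_self hQh.eigenvectorUnitary
  have hQV : Q = V * (diagonal fun a => (q a : ℂ)) * star V := by
    have := hQh.spectral_theorem
    rw [Unitary.conjStarAlgAut_apply] at this
    exact this
  set P' : Matrix m m ℂ := star V * P * V with hP'
  have hPV : P = V * P' * star V := by
    rw [hP']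
    calc P = (V * star V) * P * (V * star V) := by rw [h1, Matrix.one_mul, Matrix.mul_one]
      _ = V * (star V * P * V) * star V := by simp only [Matrix.mul_assoc]
  have hP'd : P'.PosDef := by
    have hu : IsUnit V := ⟨⟨V, star V, h1, h2⟩, rfl⟩
    have := hP.conjTranspose_mul_mul_same (B := V) (Matrix.mulVec_injective_iff_isUnit.2 hu)
    exact this
  have hFF : ∀ z, FF P Q be y z = FF P' (diagonal fun a => (q a : ℂ)) be y z := by
    intro z
    conv_lhs => rw [hPV, hQV]
    exact FF_conj V (star V) P' _ h1 h2 be y z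
  have hne : ∀ z : ℂ, ρ ≤ ‖z - c‖ → z ≠ 0 → ∀ j a, z ≠ be j * q a := by
    intro z hz hz0 j a h
    by_cases hj : j = j0
    · rw [hj, hb0] at h
      apply hz0
      simpa using h
    · have := hQe hQh j hj a
      rw [h, ← Complex.ofReal_mul, ← Complex.ofReal_sub, Complex.norm_real, Real.norm_eq_abs] at hz
      linarith
  have hdet : ∀ z : ℂ, ρ ≤ ‖z - c‖ → z ≠ 0 → (G P' q be y z).det ≠ 0 := by
    intro z hz hz0
    have hS : ∀ j, (z • (1 : Matrix m m ℂ) - (be j : ℂ) • Q).det ≠ 0 := by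
      intro j h
      have e : z • (1 : Matrix m m ℂ) - (be j : ℂ) • Q =
          V * (diagonal fun a => z - be j * q a) * star V := by
        have e1 : (diagonal fun a => z - be j * q a : Matrix m m ℂ) =
            z • (1 : Matrix m m ℂ) - (be j : ℂ) • diagonal (fun a => (q a : ℂ)) := by
          ext i k
          by_cases hik : i = k
          · subst hik; simp
          · simp [Matrix.one_apply_ne hik, Matrix.diagonal_apply_ne _ hik]
        rw [e1, hQV, Matrix.mul_sub, Matrix.sub_mul, Matrix.mul_smul, Matrix.mul_smul,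
          Matrix.smul_mul, Matrix.smul_mul, Matrix.mul_one, h1]
      rw [e, Matrix.det_mul, Matrix.det_mul, Matrix.det_diagonal] at h
      have hVd : V.det * (star V).det = 1 := by rw [← Matrix.det_mul, h1, Matrix.det_one]
      have h3 : ∏ a, (z - be j * q a) = 0 := by
        calc ∏ a, (z - be j * q a) = (V.det * (star V).det) * ∏ a, (z - be j * q a) := by
              rw [hVd, one_mul]
          _ = V.det * (∏ a, (z - be j * q a)) * (star V).det := by ring
          _ = 0 := h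
      obtain ⟨a, _, ha⟩ := Finset.prod_eq_zero_iff.1 h3
      exact hne z hz hz0 j a (sub_eq_zero.1 ha)
    have h3 := hT P Q hP hQh be y (fun j => (hy j).le) hX z hz hS
    intro h4
    apply h3
    have e : P⁻¹ - ∑ j, (y j : ℂ) • SS Q (be j) z = V * G P' q be y z * star V := by
      conv_lhs => rw [hPV, hQV]
      rw [tauinv_conj V (star V) P' _ h1 h2]
      congr 2
      unfold G
      congr 1
      ext i k
      simp only [Matrix.sum_apply, Matrix.smul_apply, smul_eq_mul]
      rw [Finset.sum_congr rfl fun j _ => by rw [SS_diag q (be j) z (hne z hz hz0 j)]]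
      by_cases hik : i = k
      · subst hik; simp
      · simp [Matrix.diagonal_apply_ne _ hik]
    rw [e, Matrix.det_mul, Matrix.det_mul, h4, mul_zero, zero_mul]
  have := posTarget_diag h4 h5 P' hP'd q hqpos be j0 hb0 hbe y hy c ρ hρ hc hne hdet
  have hc' : (fun z : ℂ => z ^ ((p - 1 : ℝ) : ℂ) * FF P Q be y z) =
      fun z : ℂ => z ^ ((p - 1 : ℝ) : ℂ) * FF P' (diagonal fun a => (q a : ℂ)) be y z := by
    funext z; rw [hFF]
  rw [hc']
  exact this

end Pool.Agent.Lib_helper98.OPS
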