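import Mathlib

/-!
# One pure state: matrix functions of a complex variable
-/

set_option autoImplicit false

namespace Pool.Agent.Lib_helper98.OPS

open Matrix Filter Topology
open scoped ComplexOrder

section diff

variable {n : Type*} [Fintype n] [DecidableEq n]

theorem det_diff {M : ℂ → Matrix n n ℂ} {z : ℂ} (hM : ∀ a b, DifferentiableAt ℂ (fun w => M w a b) z) :
    DifferentiableAt ℂ (fun w => (M w).det) z := by
  have : (fun w => (M w).det) = fun w => ∑ σ : Equiv.Perm n, Equiv.Perm.sign σ • ∏ i, M w (σ i) i := by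
    funext w; exact Matrix.det_apply _
  rw [this]
  refine DifferentiableAt.fun_sum fun σ _ => ?_
  refine DifferentiableAt.const_smul ?_ _
  exact DifferentiableAt.fun_finsetProd fun i _ => hM _ _

theorem adj_diff {M : ℂ → Matrix n n ℂ} {z : ℂ} (hM : ∀ a b, DifferentiableAt ℂ (fun w => M w a b) z)
    (a b : n) : DifferentiableAt ℂ (fun w => (M w).adjugate a b) z := by
  simp only [Matrix.adjugate_apply]
  refine det_diff fun i j => ?_
  by_cases h : i = b
  · subst h
    simp only [Matrix.updateRow_self]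
    exact differentiableAt_const _
  · simp only [Matrix.updateRow_ne h]
    exact hM i j

theorem inv_entry (M : Matrix n n ℂ) (a b : n) : M⁻¹ a b = M.det⁻¹ * M.adjugate a b := by
  rw [Matrix.inv_def, Ring.inverse_eq_inv', Matrix.smul_apply, smul_eq_mul]

theorem inv_diff {M : ℂ → Matrix n n ℂ} {z : ℂ} (hM : ∀ a b, DifferentiableAt ℂ (fun w => M w a b) z)
    (h0 : (M z).det ≠ 0) (a b : n) : DifferentiableAt ℂ (fun w => (M w)⁻¹ a b) z := by
  simp only [inv_entry]
  exact ((det_diff hM).fun_inv h0).mul (adj_diff hM a b)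

theorem inv_tendsto {M : ℂ → Matrix n n ℂ} {l : Filter ℂ} {M0 : Matrix n n ℂ}
    (hM : ∀ a b, Tendsto (fun w => M w a b) l (𝓝 (M0 a b))) (h0 : M0.det ≠ 0) (a b : n) :
    Tendsto (fun w => (M w)⁻¹ a b) l (𝓝 (M0⁻¹ a b)) := by
  simp only [inv_entry]
  have hM' : Tendsto M l (𝓝 M0) :=
    tendsto_pi_nhds.2 fun i => tendsto_pi_nhds.2 fun j => hM i j
  have h1 : Tendsto (fun w => (M w).det) l (𝓝 M0.det) :=
    ((Continuous.matrix_det continuous_id).tendsto M0).comp hM'
  have h2 : Tendsto (fun w => (M w).adjugate a b) l (𝓝 (M0.adjugate a b)) := by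
    have : Continuous fun N : Matrix n n ℂ => N.adjugate a b :=
      (Continuous.matrix_adjugate continuous_id).matrix_elem a b
    exact (this.tendsto M0).comp hM'
  exact (h1.inv₀ h0).mul h2

end diff

/-- `z / (z - c) → 1` -/
theorem z_div_tendsto (c : ℂ) : Tendsto (fun z : ℂ => z / (z - c)) (cocompact ℂ) (𝓝 1) := by
  have h1 : Tendsto (fun z : ℂ => z⁻¹) (cocompact ℂ) (𝓝 0) := by
    have := tendsto_inv₀_cobounded (α := ℂ)
    rwa [Metric.cobounded_eq_cocompact] at this
  have h2 : Tendsto (fun z : ℂ => (1 - c * z⁻¹)⁻¹) (cocompact ℂ) (𝓝 ((1 - c * 0)⁻¹)) :=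
    (tendsto_const_nhds.sub (h1.const_mul c)).inv₀ (by simp)
  simp only [mul_zero, sub_zero, inv_one] at h2
  refine h2.congr' ?_
  have h3 : ∀ᶠ z : ℂ in cocompact ℂ, z ≠ 0 := by
    have := (isCompact_singleton (x := (0 : ℂ))).compl_mem_cocompact
    filter_upwards [this] with z hz
    simpa using hz
  filter_upwards [h3] with z hz
  have : z - c = z * (1 - c * z⁻¹) := by field_simp
  rw [this, div_eq_mul_inv, mul_inv, ← mul_assoc, mul_inv_cancel₀ hz, one_mul]

theorem inv_sub_tendsto (c : ℂ) : Tendsto (fun z : ℂ => (z - c)⁻¹) (cocompact ℂ) (𝓝 0) := by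
  have h1 : Tendsto (fun z : ℂ => z⁻¹) (cocompact ℂ) (𝓝 0) := by
    have := tendsto_inv₀_cobounded (α := ℂ)
    rwa [Metric.cobounded_eq_cocompact] at this
  have h2 := h1.mul (z_div_tendsto c)
  rw [zero_mul] at h2
  refine h2.congr' ?_
  have h3 : ∀ᶠ z : ℂ in cocompact ℂ, z ≠ 0 := by
    have := (isCompact_singleton (x := (0 : ℂ))).compl_mem_cocompact
    filter_upwards [this] with z hz
    simpa using hz
  filter_upwards [h3] with z hz
  rw [div_eq_mul_inv, ← mul_assoc, inv_mul_cancel₀ hz, one_mul]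

end Pool.Agent.Lib_helper98.OPS
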