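import Pool.Agent.Lib_helper69.OPS.Defs
import Pool.Agent.Lib_helper98.OPS.Mat

/-!
# One pure state: `PosTarget`, reduction to a diagonal `Q`
-/

set_option autoImplicit false

open scoped BigOperators ComplexOrder Kronecker MatrixOrder Topology Real
open MeasureTheory Set Matrix Filter

namespace Pool.Agent.Lib_helper98.OPS

open Pool.Agent.OPS

variable {m ι : Type} [Fintype m] [DecidableEq m] [Fintype ι] [DecidableEq ι]

/-- `-Tr [D, T]²` for a diagonal `D` -/
theorem comm_tr (d : m → ℂ) (T : Matrix m m ℂ) :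
    -(((diagonal d * T - T * diagonal d) * (diagonal d * T - T * diagonal d)).trace) =
      ∑ a, ∑ b, (d a - d b) ^ 2 * (T a b * T b a) := by
  rw [Matrix.trace, ← Finset.sum_neg_distrib]
  refine Finset.sum_congr rfl fun a _ => ?_
  rw [Matrix.diag_apply, Matrix.mul_apply, ← Finset.sum_neg_distrib]
  refine Finset.sum_congr rfl fun b _ => ?_
  simp only [Matrix.sub_apply, Matrix.diagonal_mul, Matrix.mul_diagonal]
  ring

theorem SS_diag (q : m → ℝ) (b : ℝ) (z : ℂ) (h : ∀ a, z ≠ b * q a) :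
    SS (diagonal fun a => (q a : ℂ)) b z = diagonal fun a => (z - b * q a)⁻¹ := by
  unfold SS
  refine Matrix.inv_eq_right_inv ?_
  have : z • (1 : Matrix m m ℂ) - (b : ℂ) • diagonal (fun a => (q a : ℂ)) =
      diagonal fun a => z - b * q a := by
    ext i j
    by_cases hij : i = j
    · subst hij; simp
    · simp [Matrix.one_apply_ne hij, Matrix.diagonal_apply_ne _ hij]
  rw [this, Matrix.diagonal_mul_diagonal, ← Matrix.diagonal_one]
  congr 1
  funext a
  exact mul_inv_cancel₀ (sub_ne_zero.2 (h a))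

/-- `τ⁻¹` in diagonal form -/
noncomputable def G (P : Matrix m m ℂ) (q : m → ℝ) (be y : ι → ℝ) (z : ℂ) : Matrix m m ℂ :=
  P⁻¹ - diagonal fun a => ∑ j, (y j : ℂ) * (z - be j * q a)⁻¹

omit [DecidableEq ι] in
theorem tau_diag (P : Matrix m m ℂ) (q : m → ℝ) (be y : ι → ℝ) (z : ℂ)
    (h : ∀ j a, z ≠ be j * q a) :
    tau P (diagonal fun a => (q a : ℂ)) be y z = (G P q be y z)⁻¹ := by
  unfold tau G
  congr 2
  ext i k
  simp only [Matrix.sum_apply, Matrix.smul_apply, smul_eq_mul]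
  rw [Finset.sum_congr rfl fun j _ => by rw [SS_diag q (be j) z (h j)]]
  by_cases hij : i = k
  · subst hij; simp
  · simp [Matrix.diagonal_apply_ne _ hij]

/-- `F` in diagonal form -/
noncomputable def FG (P : Matrix m m ℂ) (q : m → ℝ) (be y : ι → ℝ) (z : ℂ) : ℂ :=
  ∑ j, (y j : ℂ) * ∑ a, ∑ b, ((z - be j * q a)⁻¹ - (z - be j * q b)⁻¹) ^ 2 *
    ((G P q be y z)⁻¹ a b * (G P q be y z)⁻¹ b a)

omit [DecidableEq ι] in
theorem FF_diag (P : Matrix m m ℂ) (q : m → ℝ) (be y : ι → ℝ) (z : ℂ)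
    (h : ∀ j a, z ≠ be j * q a) :
    FF P (diagonal fun a => (q a : ℂ)) be y z = FG P q be y z := by
  unfold FF FG
  refine Finset.sum_congr rfl fun j _ => ?_
  rw [SS_diag q (be j) z (h j), tau_diag P q be y z h, comm_tr]

omit [Fintype m] [DecidableEq m] [Fintype ι] [DecidableEq ι] in
theorem ev_ne [Finite m] [Finite ι] (q : m → ℝ) (be : ι → ℝ) (z : ℂ) (h : ∀ j a, z ≠ be j * q a) :
    ∀ᶠ w : ℂ in 𝓝 z, ∀ j a, w ≠ be j * q a :=
  eventually_all.2 fun j => eventually_all.2 fun a => eventually_ne_nhds (h j a)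

omit [Fintype m] [DecidableEq m] [Fintype ι] [DecidableEq ι] in
theorem ev_ne_inf [Finite m] [Finite ι] (q : m → ℝ) (be : ι → ℝ) :
    ∀ᶠ w : ℂ in cocompact ℂ, ∀ j a, w ≠ be j * q a := by
  refine eventually_all.2 fun j => eventually_all.2 fun a => ?_
  have := (isCompact_singleton (x := ((be j : ℂ) * q a))).compl_mem_cocompact
  filter_upwards [this] with z hz
  simpa using hz

omit [DecidableEq ι] in
theorem G_diff (P : Matrix m m ℂ) (q : m → ℝ) (be y : ι → ℝ) (z : ℂ)
    (h : ∀ j a, z ≠ be j * q a) (a b : m) :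
    DifferentiableAt ℂ (fun w => G P q be y w a b) z := by
  unfold G
  simp only [Matrix.sub_apply]
  refine (differentiableAt_const _).sub ?_
  by_cases hab : a = b
  · subst hab
    simp only [Matrix.diagonal_apply_eq]
    refine DifferentiableAt.fun_sum fun j _ => ?_
    refine (differentiableAt_const _).mul (DifferentiableAt.fun_inv ?_ (sub_ne_zero.2 (h j a)))
    exact differentiableAt_id.sub (differentiableAt_const _)
  · simp only [Matrix.diagonal_apply_ne _ hab]
    exact differentiableAt_const _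

omit [DecidableEq ι] in
theorem FG_diff (P : Matrix m m ℂ) (q : m → ℝ) (be y : ι → ℝ) (z : ℂ)
    (h : ∀ j a, z ≠ be j * q a) (h0 : (G P q be y z).det ≠ 0) :
    DifferentiableAt ℂ (FG P q be y) z := by
  unfold FG
  refine DifferentiableAt.fun_sum fun j _ => (differentiableAt_const _).mul ?_
  refine DifferentiableAt.fun_sum fun a _ => DifferentiableAt.fun_sum fun b _ => ?_
  have hi : ∀ a, DifferentiableAt ℂ (fun w : ℂ => (w - be j * q a)⁻¹) z := fun a =>
    DifferentiableAt.fun_inv (differentiableAt_id.sub (differentiableAt_const _))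
      (sub_ne_zero.2 (h j a))
  exact (((hi a).sub (hi b)).pow 2).mul
    ((inv_diff (G_diff P q be y z h) h0 a b).mul (inv_diff (G_diff P q be y z h) h0 b a))

omit [DecidableEq ι] in
theorem FF_diff (P : Matrix m m ℂ) (q : m → ℝ) (be y : ι → ℝ) (z : ℂ)
    (h : ∀ j a, z ≠ be j * q a) (h0 : (G P q be y z).det ≠ 0) :
    DifferentiableAt ℂ (FF P (diagonal fun a => (q a : ℂ)) be y) z := by
  refine (FG_diff P q be y z h h0).congr_of_eventuallyEq ?_
  filter_upwards [ev_ne q be z h] with w hw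
  exact FF_diag P q be y w hw

omit [DecidableEq ι] in
/-- the limit of `z⁴ F(z)` at infinity -/
theorem FF_lim (P : Matrix m m ℂ) (hP : P.PosDef) (q : m → ℝ) (be y : ι → ℝ) :
    Tendsto (fun z => z ^ 4 * FF P (diagonal fun a => (q a : ℂ)) be y z) (cocompact ℂ)
      (𝓝 ((∑ a, ∑ b, Complex.normSq (P a b) * ∑ j, y j * (be j * q a - be j * q b) ^ 2 : ℝ) : ℂ)) := by
  have hdet : P⁻¹.det ≠ 0 := by
    have := hP.inv.det_pos
    exact this.ne'
  have hG : ∀ a b, Tendsto (fun z => G P q be y z a b) (cocompact ℂ) (𝓝 (P⁻¹ a b)) := by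
    intro a b
    unfold G
    simp only [Matrix.sub_apply]
    suffices h : Tendsto (fun z : ℂ => (diagonal fun a => ∑ j, (y j : ℂ) * (z - be j * q a)⁻¹ :
        Matrix m m ℂ) a b) (cocompact ℂ) (𝓝 0) by
      simpa using (tendsto_const_nhds (x := P⁻¹ a b)).sub h
    by_cases hab : a = b
    · subst hab
      simp only [Matrix.diagonal_apply_eq]
      have : Tendsto (fun z : ℂ => ∑ j, (y j : ℂ) * (z - be j * q a)⁻¹) (cocompact ℂ)
          (𝓝 (∑ j : ι, (y j : ℂ) * 0)) :=
        tendsto_finsetSum _ fun j _ => (inv_sub_tendsto _).const_mul _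
      simpa using this
    · simp only [Matrix.diagonal_apply_ne _ hab]
      exact tendsto_const_nhds
  have hI := inv_tendsto hG hdet
  have hPP : P⁻¹⁻¹ = P := Matrix.nonsing_inv_nonsing_inv P (by
    exact (isUnit_iff_ne_zero.2 hP.det_pos.ne'))
  rw [hPP] at hI
  have hd : ∀ j a b, Tendsto (fun z : ℂ => z ^ 2 * ((z - be j * q a)⁻¹ - (z - be j * q b)⁻¹))
      (cocompact ℂ) (𝓝 (be j * q a - be j * q b)) := by
    intro j a b
    have h1 := ((z_div_tendsto ((be j : ℂ) * q a)).mul (z_div_tendsto ((be j : ℂ) * q b))).mul_const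
      ((be j : ℂ) * q a - be j * q b)
    rw [one_mul, one_mul] at h1
    refine h1.congr' ?_
    filter_upwards [ev_ne_inf q be] with z hz
    have ha := sub_ne_zero.2 (hz j a)
    have hb := sub_ne_zero.2 (hz j b)
    field_simp
    ring
  have hmain : Tendsto (fun z : ℂ => ∑ j, (y j : ℂ) * ∑ a, ∑ b,
      (z ^ 2 * ((z - be j * q a)⁻¹ - (z - be j * q b)⁻¹)) ^ 2 *
        ((G P q be y z)⁻¹ a b * (G P q be y z)⁻¹ b a)) (cocompact ℂ)
      (𝓝 (∑ j, (y j : ℂ) * ∑ a, ∑ b, ((be j : ℂ) * q a - be j * q b) ^ 2 * (P a b * P b a))) := by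
    refine tendsto_finsetSum _ fun j _ => Tendsto.const_mul _ ?_
    refine tendsto_finsetSum _ fun a _ => tendsto_finsetSum _ fun b _ => ?_
    exact ((hd j a b).pow 2).mul ((hI a b).mul (hI b a))
  have hval : (∑ j, (y j : ℂ) * ∑ a, ∑ b, ((be j : ℂ) * q a - be j * q b) ^ 2 * (P a b * P b a)) =
      ((∑ a, ∑ b, Complex.normSq (P a b) * ∑ j, y j * (be j * q a - be j * q b) ^ 2 : ℝ) : ℂ) := by
    push_cast
    simp only [Finset.mul_sum]
    rw [Finset.sum_comm]
    refine Finset.sum_congr rfl fun a _ => ?_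
    rw [Finset.sum_comm]
    refine Finset.sum_congr rfl fun b _ => Finset.sum_congr rfl fun j _ => ?_
    have : P b a = star (P a b) := by
      have := congrFun (congrFun hP.1 b) a
      simpa [Matrix.conjTranspose_apply] using this.symm
    rw [this, ← Complex.mul_conj]
    simp only [Complex.star_def]
    ring
  rw [hval] at hmain
  refine hmain.congr' ?_
  filter_upwards [ev_ne_inf q be] with z hz
  rw [FF_diag P q be y z hz]
  unfold FG
  rw [Finset.mul_sum]
  refine Finset.sum_congr rfl fun j _ => ?_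
  simp only [Finset.mul_sum]
  refine Finset.sum_congr rfl fun a _ => Finset.sum_congr rfl fun b _ => ?_
  ring

omit [DecidableEq ι] in
/-- near `0`: `(z - b q_a)⁻¹` for `b q_a ≠ 0` is continuous -/
theorem inv_cont0 (c : ℂ) (hc : c ≠ 0) :
    Tendsto (fun z : ℂ => (z - c)⁻¹) (𝓝[≠] 0) (𝓝 (0 - c)⁻¹) := by
  have : ContinuousAt (fun z : ℂ => (z - c)⁻¹) 0 :=
    ContinuousAt.inv₀ (continuousAt_id.sub continuousAt_const) (by simpa using hc)
  exact this.tendsto.mono_left nhdsWithin_le_nhds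

omit [Fintype ι] [DecidableEq ι] in
theorem inv_smul_ne {z : ℂ} (hz : z ≠ 0) (A : Matrix m m ℂ) : (z • A)⁻¹ = z⁻¹ • A⁻¹ := by
  by_cases h : IsUnit A.det
  · exact Matrix.inv_smul' A (Units.mk0 z hz) h
  · have h' : ¬ IsUnit (z • A).det := by
      rw [Matrix.det_smul]
      intro hu
      exact h (isUnit_of_mul_isUnit_right hu)
    rw [Matrix.nonsing_inv_apply_not_isUnit _ h, Matrix.nonsing_inv_apply_not_isUnit _ h',
      smul_zero]

/-- near `0` the function `F` tends to `0` -/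
theorem FF_zero (P : Matrix m m ℂ) (q : m → ℝ) (hq : ∀ a, 0 < q a) (be y : ι → ℝ)
    (j0 : ι) (hb0 : be j0 = 0) (hbe : ∀ j, j ≠ j0 → 0 < be j) (hy0 : y j0 ≠ 0) :
    Tendsto (FF P (diagonal fun a => (q a : ℂ)) be y) (𝓝[≠] 0) (𝓝 0) := by
  have hc : ∀ j, j ≠ j0 → ∀ a, ((be j : ℂ) * q a) ≠ 0 := by
    intro j hj a
    exact mul_ne_zero (by exact_mod_cast (hbe j hj).ne') (by exact_mod_cast (hq a).ne')
  have hev : ∀ᶠ z : ℂ in 𝓝[≠] 0, z ≠ 0 ∧ ∀ j a, z ≠ be j * q a := by
    have h1 : ∀ᶠ z : ℂ in 𝓝[≠] 0, z ≠ 0 := eventually_mem_nhdsWithin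
    have h2 : ∀ᶠ z : ℂ in 𝓝[≠] 0, ∀ j a, j ≠ j0 → z ≠ be j * q a := by
      refine eventually_all.2 fun j => eventually_all.2 fun a => ?_
      by_cases hj : j = j0
      · exact Eventually.of_forall fun z h => absurd hj h
      · have := eventually_ne_nhds (hc j hj a).symm
        filter_upwards [mem_nhdsWithin_of_mem_nhds this] with z hz _
        exact hz
    filter_upwards [h1, h2] with z hz1 hz2
    refine ⟨hz1, fun j a => ?_⟩
    by_cases hj : j = j0
    · subst hj; rw [hb0]; simpa using hz1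
    · exact hz2 j a hj
  -- `z G(z)` tends to `-y₀`
  have hzG : ∀ a b, Tendsto (fun z : ℂ => (z • G P q be y z) a b) (𝓝[≠] 0)
      (𝓝 ((diagonal fun _ => -(y j0 : ℂ) : Matrix m m ℂ) a b)) := by
    intro a b
    unfold G
    simp only [Matrix.smul_apply, Matrix.sub_apply, smul_eq_mul]
    have hz0 : Tendsto (fun z : ℂ => z) (𝓝[≠] 0) (𝓝 0) := nhdsWithin_le_nhds
    by_cases hab : a = b
    · subst hab
      simp only [Matrix.diagonal_apply_eq]
      have h3 : Tendsto (fun z : ℂ => z * P⁻¹ a a - ∑ j, (y j : ℂ) * (z * (z - be j * q a)⁻¹))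
          (𝓝[≠] 0) (𝓝 (0 * P⁻¹ a a - ∑ j, (y j : ℂ) * if j = j0 then 1 else 0)) := by
        refine (hz0.mul_const _).sub (tendsto_finsetSum _ fun j _ => Tendsto.const_mul _ ?_)
        by_cases hj : j = j0
        · rw [if_pos hj, hj]
          refine tendsto_const_nhds.congr' ?_
          filter_upwards [hev] with z hz
          rw [hb0]
          simp [hz.1]
        · rw [if_neg hj]
          have := hz0.mul (inv_cont0 _ (hc j hj a))
          simpa using this
      simp only [zero_mul, zero_sub, mul_ite, mul_one, mul_zero, Finset.sum_ite_eq',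
        Finset.mem_univ, if_true] at h3
      refine h3.congr fun z => ?_
      rw [mul_sub, Finset.mul_sum]
      congr 1
      exact Finset.sum_congr rfl fun j _ => by ring
    · simp only [Matrix.diagonal_apply_ne _ hab, sub_zero]
      have := hz0.mul_const (P⁻¹ a b)
      simpa using this
  have hdet0 : (diagonal fun _ => -(y j0 : ℂ) : Matrix m m ℂ).det ≠ 0 := by
    rw [Matrix.det_diagonal]
    exact Finset.prod_ne_zero_iff.2 fun _ _ => neg_ne_zero.2 (by exact_mod_cast hy0)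
  have hI := inv_tendsto hzG hdet0
  have hz0 : Tendsto (fun z : ℂ => z) (𝓝[≠] 0) (𝓝 0) := nhdsWithin_le_nhds
  set W : Matrix m m ℂ := (diagonal fun _ => -(y j0 : ℂ) : Matrix m m ℂ)⁻¹ with hW
  have hmain : Tendsto (fun z : ℂ => z ^ 2 * ∑ j, (y j : ℂ) * ∑ a, ∑ b,
      ((z - be j * q a)⁻¹ - (z - be j * q b)⁻¹) ^ 2 *
        ((z • G P q be y z)⁻¹ a b * (z • G P q be y z)⁻¹ b a)) (𝓝[≠] 0)
      (𝓝 (0 ^ 2 * ∑ j, (y j : ℂ) * ∑ a, ∑ b,
        (if j = j0 then 0 else (0 - (be j : ℂ) * q a)⁻¹ - (0 - (be j : ℂ) * q b)⁻¹) ^ 2 *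
          (W a b * W b a))) := by
    refine (hz0.pow 2).mul (tendsto_finsetSum _ fun j _ => Tendsto.const_mul _ ?_)
    refine tendsto_finsetSum _ fun a _ => tendsto_finsetSum _ fun b _ => ?_
    refine Tendsto.mul (Tendsto.pow ?_ 2) ((hI a b).mul (hI b a))
    by_cases hj : j = j0
    · rw [if_pos hj, hj, hb0]
      refine tendsto_const_nhds.congr fun z => ?_
      simp
    · rw [if_neg hj]
      exact (inv_cont0 _ (hc j hj a)).sub (inv_cont0 _ (hc j hj b))
  rw [zero_pow (by norm_num), zero_mul] at hmain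
  refine hmain.congr' ?_
  filter_upwards [hev] with z hz
  rw [FF_diag P q be y z hz.2]
  unfold FG
  rw [Finset.mul_sum]
  refine Finset.sum_congr rfl fun j _ => ?_
  simp only [Finset.mul_sum]
  refine Finset.sum_congr rfl fun a _ => Finset.sum_congr rfl fun b _ => ?_
  have hs : ∀ i k, (z • G P q be y z)⁻¹ i k = z⁻¹ * (G P q be y z)⁻¹ i k := by
    intro i k
    rw [inv_smul_ne hz.1, Matrix.smul_apply, smul_eq_mul]
  rw [hs, hs]
  have := hz.1
  field_simp

theorem z4_diff (P : Matrix m m ℂ) (q : m → ℝ) (hq : ∀ a, 0 < q a) (be y : ι → ℝ)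
    (j0 : ι) (hb0 : be j0 = 0) (hbe : ∀ j, j ≠ j0 → 0 < be j) (hy0 : y j0 ≠ 0) :
    DifferentiableAt ℂ (fun z => z ^ 4 * FF P (diagonal fun a => (q a : ℂ)) be y z) 0 := by
  have h : HasDerivAt (fun z => z ^ 4 * FF P (diagonal fun a => (q a : ℂ)) be y z) 0 0 := by
    rw [hasDerivAt_iff_tendsto_slope]
    have hz0 : Tendsto (fun z : ℂ => z) (𝓝[≠] 0) (𝓝 0) := nhdsWithin_le_nhds
    have h1 := (hz0.pow 3).mul (FF_zero P q hq be y j0 hb0 hbe hy0)
    rw [mul_zero] at h1
    refine h1.congr' ?_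
    filter_upwards [self_mem_nhdsWithin] with z hz
    have hz' : z ≠ 0 := hz
    simp only [slope, vsub_eq_sub, sub_zero, smul_eq_mul]
    field_simp
    ring
  exact h.differentiableAt

end Pool.Agent.Lib_helper98.OPS
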