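import Pool.Agent.Lib_helper98.OPS.PosT

/-!
# One pure state: `PosTarget`, resolvents and unitary conjugation
-/

set_option autoImplicit false

open scoped BigOperators ComplexOrder Kronecker MatrixOrder Topology Real
open MeasureTheory Set Matrix Filter

namespace Pool.Agent.Lib_helper98.OPS

open Pool.Agent.OPS

variable {m ι : Type} [Fintype m] [DecidableEq m] [Fintype ι] [DecidableEq ι]

omit [Fintype m] [DecidableEq m] [Fintype ι] in
theorem XX_herm (P Q : Matrix m m ℂ) (hP : P.IsHermitian) (hQ : Q.IsHermitian) (be y : ι → ℝ) :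
    (XX P Q be y).IsHermitian := by
  unfold XX
  refine Matrix.IsHermitian.add ?_ ?_
  · unfold Matrix.IsHermitian
    rw [Matrix.conjTranspose_kronecker, hP.eq]
    congr 1
    ext i j
    simp only [phiM, Matrix.conjTranspose_apply, Matrix.of_apply, Complex.star_def,
      Complex.conj_ofReal]
    rw [mul_comm]
  · unfold Matrix.IsHermitian
    rw [Matrix.conjTranspose_kronecker, hQ.eq]
    congr 1
    ext i j
    by_cases hij : i = j
    · subst hij; simp [Matrix.conjTranspose_apply]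
    · simp [Matrix.conjTranspose_apply, Matrix.diagonal_apply_ne _ hij,
        Matrix.diagonal_apply_ne _ (Ne.symm hij)]

/-- eigenvalues of a Hermitian matrix -/
theorem eig_of_vec {n : Type*} [Fintype n] [DecidableEq n] (A : Matrix n n ℂ)
    (hA : A.IsHermitian) (z : ℂ) (w : n → ℂ) (hw : w ≠ 0) (h : A *ᵥ w = z • w) :
    ∃ i, z = (hA.eigenvalues i : ℂ) := by
  have h1 : z ∈ spectrum ℂ A := by
    rw [spectrum.mem_iff, Matrix.isUnit_iff_isUnit_det]
    intro hu
    refine hu.ne_zero ?_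
    refine Matrix.exists_mulVec_eq_zero_iff.1 ⟨w, hw, ?_⟩
    rw [Matrix.sub_mulVec, h, Algebra.algebraMap_eq_smul_one, Matrix.smul_mulVec, Matrix.one_mulVec,
      sub_self]
  rw [hA.spectrum_eq_image_range] at h1
  obtain ⟨_, ⟨i, rfl⟩, hi⟩ := h1
  exact ⟨i, hi.symm⟩

/-- `τ⁻¹` is invertible outside the disc -/
theorem hT (P Q : Matrix m m ℂ) (hP : P.PosDef) (hQ : Q.IsHermitian) (be y : ι → ℝ)
    (hy : ∀ j, 0 ≤ y j) {c ρ : ℝ}
    (hX : ∀ hX : (XX P Q be y).IsHermitian, ∀ i, |hX.eigenvalues i - c| < ρ) (z : ℂ)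
    (hz : ρ ≤ ‖z - c‖) (hS : ∀ j, (z • (1 : Matrix m m ℂ) - (be j : ℂ) • Q).det ≠ 0) :
    (P⁻¹ - ∑ j, (y j : ℂ) • SS Q (be j) z).det ≠ 0 := by
  intro h0
  obtain ⟨v, hv0, hv⟩ := Matrix.exists_mulVec_eq_zero_iff.2 h0
  have hPu : IsUnit P.det := isUnit_iff_ne_zero.2 hP.det_pos.ne'
  have hv1 : P *ᵥ ((∑ j, (y j : ℂ) • SS Q (be j) z) *ᵥ v) = v := by
    rw [Matrix.sub_mulVec, sub_eq_zero] at hv
    rw [← hv, Matrix.mulVec_mulVec, Matrix.mul_nonsing_inv _ hPu, Matrix.one_mulVec]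
  have hQS : ∀ j, (be j : ℂ) • (Q *ᵥ (SS Q (be j) z *ᵥ v)) = z • (SS Q (be j) z *ᵥ v) - v := by
    intro j
    have h1 : (z • (1 : Matrix m m ℂ) - (be j : ℂ) • Q) *ᵥ (SS Q (be j) z *ᵥ v) = v := by
      unfold SS
      rw [Matrix.mulVec_mulVec, Matrix.mul_nonsing_inv _ (isUnit_iff_ne_zero.2 (hS j)),
        Matrix.one_mulVec]
    rw [Matrix.sub_mulVec, Matrix.smul_mulVec, Matrix.smul_mulVec, Matrix.one_mulVec] at h1
    rw [sub_eq_iff_eq_add] at h1
    rw [h1, add_sub_cancel_left]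
  set w : m × ι → ℂ := fun p => ((√(y p.2) : ℝ) : ℂ) * (SS Q (be p.2) z *ᵥ v) p.1 with hw
  have hXh := XX_herm P Q hP.1 hQ be y
  have hXw : XX P Q be y *ᵥ w = z • w := by
    funext p
    obtain ⟨a, i⟩ := p
    have e1 : (XX P Q be y *ᵥ w) (a, i) =
        ((√(y i) : ℝ) : ℂ) * (P *ᵥ ((∑ j, (y j : ℂ) • SS Q (be j) z) *ᵥ v)) a +
        ((√(y i) : ℝ) : ℂ) * ((be i : ℂ) • (Q *ᵥ (SS Q (be i) z *ᵥ v))) a := by
      unfold XX
      rw [Matrix.add_mulVec, Pi.add_apply]
      congr 1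
      · rw [Matrix.mulVec, dotProduct, Fintype.sum_prod_type, Matrix.mulVec, dotProduct,
          Finset.mul_sum]
        refine Finset.sum_congr rfl fun b _ => ?_
        rw [Matrix.sum_mulVec, Finset.sum_apply, Finset.mul_sum, Finset.mul_sum]
        refine Finset.sum_congr rfl fun k _ => ?_
        rw [Matrix.smul_mulVec, Pi.smul_apply, smul_eq_mul]
        simp only [Matrix.kroneckerMap_apply, phiM, Matrix.of_apply, hw]
        have hs : ((√(y k) : ℝ) : ℂ) * ((√(y k) : ℝ) : ℂ) = (y k : ℂ) := by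
          rw [← Complex.ofReal_mul, Real.mul_self_sqrt (hy k)]
        push_cast
        rw [← hs]
        ring
      · rw [Matrix.mulVec, dotProduct, Fintype.sum_prod_type, Pi.smul_apply, Matrix.mulVec,
          dotProduct, smul_eq_mul, Finset.mul_sum, Finset.mul_sum]
        refine Finset.sum_congr rfl fun b _ => ?_
        rw [Finset.sum_eq_single i]
        · simp only [Matrix.kroneckerMap_apply, Matrix.diagonal_apply_eq, hw]
          ring
        · intro k _ hk
          simp only [Matrix.kroneckerMap_apply, Matrix.diagonal_apply_ne _ (Ne.symm hk), mul_zero,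
            zero_mul]
        · intro h; exact absurd (Finset.mem_univ _) h
    rw [e1, hv1, hQS i]
    simp only [Pi.sub_apply, Pi.smul_apply, smul_eq_mul, hw]
    ring
  have hw0 : w ≠ 0 := by
    intro hw0
    apply hv0
    rw [← hv1]
    have : (∑ j, (y j : ℂ) • SS Q (be j) z) *ᵥ v = 0 := by
      rw [Matrix.sum_mulVec]
      refine Finset.sum_eq_zero fun j _ => ?_
      rw [Matrix.smul_mulVec]
      funext a
      have h1 := congrFun hw0 (a, j)
      simp only [hw, Pi.zero_apply] at h1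
      have hs : ((√(y j) : ℝ) : ℂ) * ((√(y j) : ℝ) : ℂ) = (y j : ℂ) := by
        rw [← Complex.ofReal_mul, Real.mul_self_sqrt (hy j)]
      rw [Pi.smul_apply, smul_eq_mul, Pi.zero_apply, ← hs, mul_assoc, h1, mul_zero]
    rw [this, Matrix.mulVec_zero]
  obtain ⟨i, hi⟩ := eig_of_vec _ hXh z w hw0 hXw
  have := hX hXh i
  rw [hi, ← Complex.ofReal_sub, Complex.norm_real, Real.norm_eq_abs] at hz
  linarith

/-! ### unitary conjugation -/

theorem inv_conj (V V' A : Matrix m m ℂ) (h1 : V * V' = 1) (h2 : V' * V = 1) :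
    (V * A * V')⁻¹ = V * A⁻¹ * V' := by
  rw [Matrix.mul_inv_rev, Matrix.mul_inv_rev, Matrix.inv_eq_right_inv h1,
    Matrix.inv_eq_right_inv h2, Matrix.mul_assoc]

theorem SS_conj (V V' Q : Matrix m m ℂ) (h1 : V * V' = 1) (h2 : V' * V = 1) (b : ℝ) (z : ℂ) :
    SS (V * Q * V') b z = V * SS Q b z * V' := by
  unfold SS
  rw [← inv_conj V V' _ h1 h2]
  congr 1
  rw [Matrix.mul_sub, Matrix.sub_mul, Matrix.mul_smul, Matrix.mul_smul, Matrix.smul_mul,
    Matrix.smul_mul, Matrix.mul_one, h1]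

omit [DecidableEq ι] in
theorem tauinv_conj (V V' P Q : Matrix m m ℂ) (h1 : V * V' = 1) (h2 : V' * V = 1)
    (be y : ι → ℝ) (z : ℂ) :
    (V * P * V')⁻¹ - ∑ j, (y j : ℂ) • SS (V * Q * V') (be j) z =
      V * (P⁻¹ - ∑ j, (y j : ℂ) • SS Q (be j) z) * V' := by
  rw [inv_conj V V' P h1 h2, Matrix.mul_sub, Matrix.sub_mul, Matrix.mul_sum, Matrix.sum_mul]
  congr 1
  refine Finset.sum_congr rfl fun j _ => ?_
  rw [SS_conj V V' Q h1 h2, Matrix.mul_smul, Matrix.smul_mul]

omit [DecidableEq ι] in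
theorem tau_conj (V V' P Q : Matrix m m ℂ) (h1 : V * V' = 1) (h2 : V' * V = 1)
    (be y : ι → ℝ) (z : ℂ) :
    tau (V * P * V') (V * Q * V') be y z = V * tau P Q be y z * V' := by
  unfold tau
  rw [tauinv_conj V V' P Q h1 h2, inv_conj V V' _ h1 h2]

omit [DecidableEq ι] in
theorem FF_conj (V V' P Q : Matrix m m ℂ) (h1 : V * V' = 1) (h2 : V' * V = 1)
    (be y : ι → ℝ) (z : ℂ) :
    FF (V * P * V') (V * Q * V') be y z = FF P Q be y z := by
  unfold FF
  refine Finset.sum_congr rfl fun j _ => ?_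
  rw [SS_conj V V' Q h1 h2, tau_conj V V' P Q h1 h2]
  have hm : ∀ A B : Matrix m m ℂ, (V * A * V') * (V * B * V') = V * (A * B) * V' := by
    intro A B
    calc (V * A * V') * (V * B * V') = V * A * (V' * V) * B * V' := by
          simp only [Matrix.mul_assoc]
      _ = V * (A * B) * V' := by rw [h2, Matrix.mul_one]; simp only [Matrix.mul_assoc]
  have hs : ∀ A B : Matrix m m ℂ, V * A * V' - V * B * V' = V * (A - B) * V' := by
    intro A B
    rw [Matrix.mul_sub, Matrix.sub_mul]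
  rw [hm, hm, hs, hm, Matrix.trace_mul_comm, ← Matrix.mul_assoc, h2, Matrix.one_mul]

end Pool.Agent.Lib_helper98.OPS
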